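import Pool.Agent.Helper68.SG.Ctx

/-! Part B, file B3: margins and counting. -/

set_option autoImplicit false

namespace Pool.Agent.Helper31.SG

open Pool.Agent.Helper68.SG

theorem T_mono' {m : ℕ} {T nn w : ℕ → ℕ} (hT : ∀ k < m, T (k + 1) = T k + nn (w k)) :
    ∀ a b, a ≤ b → b ≤ m → T a ≤ T b := by
  intro a b hab
  induction b, hab using Nat.le_induction with
  | base => intro _; exact le_rfl
  | succ b hab ih =>
    intro hb
    have h1 := hT b (by omega)
    have h2 := ih (by omega)
    omega

theorem T_small {m Λ : ℕ} {T nn w : ℕ → ℕ} (hT : ∀ k < m, T (k + 1) = T k + nn (w k)) :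
    ∀ a b, a ≤ b → b ≤ m → (∀ k, a ≤ k → k < b → nn (w k) < Λ) →
      T b + (b - a) ≤ T a + (b - a) * Λ := by
  intro a b hab
  induction b, hab using Nat.le_induction with
  | base => intro _ _; simp
  | succ b hab ih =>
    intro hb hs
    have h1 := hT b (by omega)
    have h2 := ih (by omega) (fun k h3 h4 => hs k h3 (by omega))
    have h3 := hs b hab (by omega)
    have h4 : b + 1 - a = (b - a) + 1 := by omega
    rw [h4, add_mul, one_mul]
    omega

theorem margin {m n Λ P D : ℕ} {w s nn T : ℕ → ℕ} (hm : m ≤ n) (hnn : ∀ x, 1 ≤ nn x)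
    (hT : ∀ k < m, T (k + 1) = T k + nn (w k)) (hbig : ∃ k < m, Λ ≤ nn (w k))
    (hmod : ∀ k < m, Λ ≤ nn (w k) → T k ≡ s (w k) [MOD P])
    (hD : ∀ k < m, nn (w k) < Λ → n * Λ ≤ D) {z : ℕ} (hz0 : T 0 ≤ z) (hzm : z < T m)
    (hfar : ∀ k < m, Λ ≤ nn (w k) → ¬ Near P D z (s (w k)) ∧ ¬ Near P D z (s (w k) + nn (w k))) :
    ∃ k < m, Λ ≤ nn (w k) ∧ T k ≤ z ∧ z < T (k + 1) ∧ T k + D ≤ z ∧ z + D ≤ T (k + 1) := by
  classical
  have hmono := T_mono' hT
  -- the index of `z`
  obtain ⟨k, hkm, hk1, hk2⟩ : ∃ k < m, T k ≤ z ∧ z < T (k + 1) := by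
    have hex : ∃ k, z < T (k + 1) ∧ k < m := by
      have : 0 < m := by
        rcases Nat.eq_zero_or_pos m with h | h
        · rw [h] at hzm; omega
        · exact h
      exact ⟨m - 1, by rw [Nat.sub_add_cancel this]; exact hzm, by omega⟩
    refine ⟨Nat.find hex, (Nat.find_spec hex).2, ?_, (Nat.find_spec hex).1⟩
    rcases Nat.eq_zero_or_pos (Nat.find hex) with h | h
    · rw [h]; exact hz0
    · have h1 := Nat.find_min hex (m := Nat.find hex - 1) (by omega)
      have h2 := (Nat.find_spec hex).2
      rw [Nat.sub_add_cancel h] at h1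
      by_contra h3
      exact h1 ⟨by omega, by omega⟩
  by_cases hb : Λ ≤ nn (w k)
  · refine ⟨k, hkm, hb, hk1, hk2, ?_, ?_⟩
    · by_contra h
      apply (hfar k hkm hb).1
      refine ⟨z - T k, by omega, Or.inr ?_⟩
      have h1 : z = T k + (z - T k) := by omega
      have h2 := (hmod k hkm hb).add_right (z - T k)
      rw [← h1] at h2; exact h2
    · by_contra h
      apply (hfar k hkm hb).2
      refine ⟨T (k + 1) - z, by omega, Or.inl ?_⟩
      have h1 : z + (T (k + 1) - z) = T k + nn (w k) := by rw [← hT k hkm]; omega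
      rw [h1]
      exact (hmod k hkm hb).add_right _
  · exfalso
    have hDn := hD k hkm (by omega)
    by_cases hex : ∃ k', k < k' ∧ k' < m ∧ Λ ≤ nn (w k')
    · obtain ⟨g1, g2, g3⟩ := Nat.find_spec hex
      set k' := Nat.find hex with hk'
      have hsm : ∀ k'', k ≤ k'' → k'' < k' → nn (w k'') < Λ := by
        intro k'' h1 h2
        by_contra h3
        rcases Nat.lt_or_ge k k'' with h4 | h4
        · exact Nat.find_min hex h2 ⟨h4, by omega, by omega⟩
        · have : k'' = k := by omega
          subst this; exact hb (by omega)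
      have h1 := T_small hT k k' g1.le g2.le hsm
      have h2 : (k' - k) * Λ ≤ n * Λ := Nat.mul_le_mul_right _ (by omega)
      have h3 := hmono (k + 1) k' (by omega) g2.le
      apply (hfar k' g2 g3).1
      refine ⟨T k' - z, by omega, Or.inl ?_⟩
      have h4 : z + (T k' - z) = T k' := by omega
      rw [h4]; exact hmod k' g2 g3
    · push Not at hex
      obtain ⟨k0, h01, h02⟩ := hbig
      have hk0 : k0 < k := by
        rcases lt_trichotomy k0 k with h | h | h
        · exact h
        · subst h; exact absurd h02 hb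
        · have := hex k0 h h01; omega
      -- the greatest big index below `k`
      obtain ⟨k', g1, g2, g3⟩ : ∃ k', k' < k ∧ Λ ≤ nn (w k') ∧
          ∀ k'', k' + 1 ≤ k'' → k'' < k + 1 → nn (w k'') < Λ := by
        set k' := Nat.findGreatest (fun x => Λ ≤ nn (w x) ∧ x < k) k with hk'
        have h1 : Λ ≤ nn (w k') ∧ k' < k :=
          Nat.findGreatest_spec (P := fun x => Λ ≤ nn (w x) ∧ x < k) hk0.le ⟨h02, hk0⟩
        refine ⟨k', h1.2, h1.1, ?_⟩
        intro k'' h2 h3
        rcases Nat.lt_or_ge k'' k with h4 | h4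
        · by_contra h5
          have h6 := Nat.le_findGreatest (P := fun x => Λ ≤ nn (w x) ∧ x < k) (n := k)
            (m := k'') h4.le ⟨by omega, h4⟩
          omega
        · have : k'' = k := by omega
          subst this; omega
      have h1 := T_small hT (k' + 1) (k + 1) (by omega) (by omega) g3
      have h2 : (k + 1 - (k' + 1)) * Λ ≤ n * Λ := Nat.mul_le_mul_right _ (by omega)
      have h3 := hmono (k' + 1) k (by omega) hkm.le
      have h4 : k' < m := by omega
      apply (hfar k' h4 g2).2
      refine ⟨z - T (k' + 1), by omega, Or.inr ?_⟩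
      have h5 : z = T k' + nn (w k') + (z - T (k' + 1)) := by
        have := hT k' h4; omega
      have h6 := ((hmod k' h4 g2).add_right (nn (w k'))).add_right (z - T (k' + 1))
      rw [← h5] at h6; exact h6

theorem card_mults_le {L W : ℕ} (hL : 0 < L) (F : Finset ℕ) (h1 : ∀ b ∈ F, L ∣ b)
    (h2 : ∀ a ∈ F, ∀ b ∈ F, a ≤ b → b < a + W) : F.card ≤ W / L + 1 := by
  rcases F.eq_empty_or_nonempty with h | h
  · rw [h]; simp
  · set a := F.min' h with ha
    have haF : a ∈ F := F.min'_mem h
    have hle : ∀ b ∈ F, a ≤ b := fun b hb => F.min'_le b hb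
    have key : F.card ≤ (Finset.range (W / L + 1)).card := by
      apply Finset.card_le_card_of_injOn (fun b => (b - a) / L)
      · intro b hb
        have hb' : b ∈ F := hb
        have h3 := h2 a haF b hb' (hle b hb')
        simp only [Finset.coe_range, Set.mem_Iio]
        apply Nat.lt_succ_of_le
        exact Nat.div_le_div_right (by omega)
      · intro b hb c hcc hbc
        have hb' : b ∈ F := hb
        have hc' : c ∈ F := hcc
        obtain ⟨x, hx⟩ := Nat.dvd_sub (h1 b hb') (h1 a haF)
        obtain ⟨y, hy⟩ := Nat.dvd_sub (h1 c hc') (h1 a haF)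
        simp only [hx, hy, Nat.mul_div_cancel_left _ hL] at hbc
        have h3 := hle b hb'
        have h4 := hle c hc'
        rw [hbc] at hx
        omega
    simpa using key

theorem card_near_le {L P P' D lo β : ℕ} (hL : 0 < L) (hP : P + 2 * D ≤ P') (F : Finset ℕ)
    (h1 : ∀ b ∈ F, L ∣ b ∧ lo ≤ b ∧ b < lo + P ∧ Near P' D b β) :
    F.card ≤ 2 * D / L + 1 := by
  apply card_mults_le hL F (fun b hb => (h1 b hb).1)
  intro a ha b hb hab
  obtain ⟨-, a1, a2, d, hd, h3⟩ := h1 a ha
  obtain ⟨-, b1, b2, e, he, h4⟩ := h1 b hb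
  obtain ⟨x, rfl⟩ := Nat.exists_eq_add_of_le hab
  rcases h3 with h3 | h3 <;> rcases h4 with h4 | h4
  · have h5 : a + x + e ≡ a + d [MOD P'] := h4.trans h3.symm
    rw [add_assoc] at h5
    have h6 := Nat.ModEq.add_left_cancel' a h5
    have h7 := Nat.ModEq.eq_of_lt_of_lt h6 (by omega) (by omega)
    omega
  · have h5 : a + x ≡ a + d + e [MOD P'] := h4.trans (h3.symm.add_right e)
    rw [add_assoc] at h5
    have h6 := Nat.ModEq.add_left_cancel' a h5
    have h7 := Nat.ModEq.eq_of_lt_of_lt h6 (by omega) (by omega)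
    omega
  · have h5 : a + x + e + d ≡ a + 0 [MOD P'] := by
      rw [add_zero]; exact (h4.add_right d).trans h3.symm
    have h5' : a + (x + e + d) ≡ a + 0 [MOD P'] := by
      have : a + (x + e + d) = a + x + e + d := by ring
      rw [this]; exact h5
    have h6 := Nat.ModEq.add_left_cancel' a h5'
    have h7 := Nat.ModEq.eq_of_lt_of_lt h6 (by omega) (by omega)
    omega
  · have h5 : a + x + d ≡ a + e [MOD P'] := by
      have h8 := h4.add_right d
      have h9 := h3.add_right e
      have : β + e + d = β + d + e := by ring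
      rw [this] at h8
      exact h8.trans h9.symm
    rw [add_assoc] at h5
    have h6 := Nat.ModEq.add_left_cancel' a h5
    have h7 := Nat.ModEq.eq_of_lt_of_lt h6 (by omega) (by omega)
    omega

end Pool.Agent.Helper31.SG
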