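import Pool.Agent.Helper68.SG.Ctx
import Pool.Agent.Helper31.SG.B3

/-! Part B, file B6: agreement on the clear part (`agree`) and the last step (`final`). -/

set_option autoImplicit false

namespace Pool.Agent.Helper31.SG

open Pool.Agent.Helper68.SG

theorem T_mono {m : ℕ} {T nn w : ℕ → ℕ} (hT : ∀ k < m, T (k + 1) = T k + nn (w k)) :
    ∀ a b, a ≤ b → b ≤ m → T a ≤ T b := by
  intro a b hab
  induction b, hab using Nat.le_induction with
  | base => intro _; exact le_rfl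
  | succ b hab ih =>
    intro hb
    have h1 := hT b (by omega)
    have h2 := ih (by omega)
    omega

theorem near_shift {P D L β c ρ : ℕ} (hρ : ρ < L) (h : Near P D c β) :
    Near P (D + L) (c + ρ) β := by
  obtain ⟨d, hd, h1 | h1⟩ := h
  · rcases le_total ρ d with h2 | h2
    · refine ⟨d - ρ, by omega, Or.inl ?_⟩
      have : c + ρ + (d - ρ) = c + d := by omega
      rw [this]; exact h1
    · refine ⟨ρ - d, by omega, Or.inr ?_⟩
      have : c + ρ = c + d + (ρ - d) := by omega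
      rw [this]; exact h1.add_right _
  · refine ⟨d + ρ, by omega, Or.inr ?_⟩
    have : β + (d + ρ) = β + d + ρ := by omega
    rw [this]; exact h1.add_right _

theorem agree_of {A : Type} {p : Par} {w : ℕ → A} {tau : ℕ → ℕ → ℕ → ℕ}
    {C : ℕ → ℕ → ℕ → Prop} {m : ℕ} {u v s nn Tu Tv : ℕ → ℕ}
    (hc : Ctx p w tau C m u v s nn Tu Tv)
    (posV : ∀ i k : ℕ, k < m → Lam p i ≤ nn (v k) → Tv k ≡ s (v k) [MOD p.P i])
    (i : ℕ) (hcl : Claim p C m u v s nn Tv (i + 1))
    (hbig : ∃ k < m, Lam p (i + 1) ≤ nn (u k)) (k : ℕ) (hk : k < m) (j : ℕ) (hj : j < nn (v k))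
    (hfar : FarB p m u s nn (i + 1) (Dd p (i + 1) + p.len (i + 1)) (Tv k + j)) :
    w (s (v k) + j) = w (Tv k + j) := by
  have hr : 0 < p.r := by have := hc.ok.r_ge; have := hc.ok.n_pos; omega
  have hL : 0 < p.len (i + 1) := by unfold Par.len; positivity
  set L := p.len (i + 1) with hLdef
  have hmono := T_mono hc.hTv
  have hTk1 := hc.hTv k hk
  have hbig' : ∃ k < m, Lam p (i + 1) ≤ nn (v k) := by
    obtain ⟨k1, h1, h2⟩ := hbig
    obtain ⟨k2, h3, h4⟩ := hc.huv k1 h1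
    exact ⟨k2, h3, by rw [h4]; exact h2⟩
  have hz0 : Tv 0 ≤ Tv k + j := le_trans (hmono 0 k (by omega) hk.le) (by omega)
  have hzm : Tv k + j < Tv m := by
    have := hmono (k + 1) m (by omega) le_rfl
    omega
  have hDge : p.n * Lam p (i + 1) ≤ Dd p (i + 1) + L := by
    unfold Dd
    rw [if_neg (by omega), add_mul]
    omega
  obtain ⟨k1, hk1, hb1, g1, g2, g3, g4⟩ := margin (w := v) (s := s) (nn := nn) (T := Tv)
    (P := p.P (i + 1)) (D := Dd p (i + 1) + L) hc.hm hc.hnn hc.hTv hbig'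
    (fun k hk hb => posV (i + 1) k hk hb) (fun _ _ _ => hDge) hz0 hzm
    (fun k2 h2 hb2 => by
      obtain ⟨k3, h3, h4⟩ := hc.hvu k2 h2
      rw [← h4] at hb2 ⊢
      exact hfar k3 h3 hb2)
  have hkk : k1 = k := by
    rcases lt_trichotomy k1 k with h | h | h
    · have := hmono (k1 + 1) k (by omega) hk.le
      omega
    · exact h
    · have := hmono (k + 1) k1 (by omega) hk1.le
      omega
  subst hkk
  set ρ := (Tv k1 + j) % L with hρ
  have hρL : ρ < L := Nat.mod_lt _ hL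
  have hjge : ρ ≤ j := by omega
  have hdvd : L ∣ Tv k1 + (j - ρ) := by
    have h1 : Tv k1 + (j - ρ) = Tv k1 + j - (Tv k1 + j) % L := by omega
    rw [h1]; exact Nat.dvd_sub_mod _
  have hfar' : FarB p m u s nn (i + 1) (Dd p (i + 1)) (Tv k1 + (j - ρ)) := by
    intro k2 h2 hb2
    obtain ⟨h3, h4⟩ := hfar k2 h2 hb2
    have e : Tv k1 + j = Tv k1 + (j - ρ) + ρ := by omega
    constructor
    · intro h5; apply h3; rw [e]; exact near_shift hρL h5
    · intro h5; apply h4; rw [e]; exact near_shift hρL h5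
  obtain ⟨h5, h6⟩ := hcl hbig k1 hk (j - ρ) (by omega) hdvd hfar'
  have h7 := hc.good.coreAg (i + 1) _ _ (by omega) h5 hdvd h6 ρ hρL
  have e1 : s (v k1) + (j - ρ) + ρ = s (v k1) + j := by omega
  have e2 : Tv k1 + (j - ρ) + ρ = Tv k1 + j := by omega
  rwa [e1, e2] at h7

/-- counting events window by window -/
theorem cnt_succ (p : Par) (tau : ℕ → ℕ → ℕ → ℕ) (i st e a : ℕ) :
    cnt p tau i st e (a + 1) = cnt p tau i st e a +
      (if p.len i ∣ a ∧ tau i st a = e then 1 else 0) := by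
  unfold cnt
  rw [Finset.range_add_one, Finset.filter_insert]
  split_ifs with h
  · rw [Finset.card_insert_of_notMem (by simp)]
  · simp

theorem cnt_window {p : Par} {tau : ℕ → ℕ → ℕ → ℕ} {i st e a b : ℕ} :
    ∀ J : ℕ, (∀ j < J, (p.len i ∣ a + j ∧ tau i st (a + j) = e) ↔
      (p.len i ∣ b + j ∧ tau i st (b + j) = e)) →
    cnt p tau i st e b ≤ cnt p tau i st e (b + J) ∧
    cnt p tau i st e (a + J) + cnt p tau i st e b =
      cnt p tau i st e a + cnt p tau i st e (b + J) := by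
  intro J
  induction J with
  | zero => intro _; simp
  | succ J ih =>
    intro h
    obtain ⟨h1, h2⟩ := ih (fun j hj => h j (by omega))
    have h3 := h J (by omega)
    rw [← add_assoc, ← add_assoc, cnt_succ, cnt_succ]
    by_cases h4 : p.len i ∣ b + J ∧ tau i st (b + J) = e
    · rw [if_pos h4, if_pos (h3.2 h4)]; omega
    · rw [if_neg h4, if_neg (fun h5 => h4 (h3.1 h5))]; omega

/-- statement of `exists_K5` (file B2) -/
def K5Stmt : Prop := ∀ {p : Par} (_hp : p.Ok) {m : ℕ} (_hm : m ≤ p.n) (u s nn : ℕ → ℕ)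
    (_hnn : ∀ x, 1 ≤ nn x) (i : ℕ),
    ∃ K, 0 < K ∧ Val p m u s nn K ∧ ∀ z, p.P i ∣ z + K → FarB p m u s nn i (Rm p i) z

theorem final_of (exists_K5 : K5Stmt) {A : Type} {p : Par} {w : ℕ → A} {tau : ℕ → ℕ → ℕ → ℕ}
    {C : ℕ → ℕ → ℕ → Prop} {m : ℕ} {u v s nn Tu Tv : ℕ → ℕ}
    (hc : Ctx p w tau C m u v s nn Tu Tv)
    (counters : ∀ (i st e K : ℕ) (_hK : 0 < K)
      (_hV : Val p m u s nn K) (_hfar : ∀ z, p.P i ∣ z + K → FarB p m u s nn i (Rm p i) z)
      (_hbig : ∃ k < m, Lam p i ≤ nn (u k))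
      (_hJ : ∀ k < m, ∀ b, p.len i ∣ b → tau i st b = e → b < Tu (k + 1) →
        b + p.wid i ≤ Tu (k + 1)),
      (∀ k < m, ((∃ j < nn (v k), p.P i ∣ s (v k) + K + j) ∨
        (∃ j < nn (v k), p.len i ∣ s (v k) + j ∧ tau i st (s (v k) + j) = e)) →
      cnt p tau i st e (s (v k)) ≡ cnt p tau i st e (Tu 0) +
        ∑ k' ∈ Finset.range k, (cnt p tau i st e (s (v k') + nn (v k')) -
          cnt p tau i st e (s (v k'))) [MOD p.q]) ∧
      cnt p tau i st e (Tu m) ≡ cnt p tau i st e (Tu 0) +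
        ∑ k' ∈ Finset.range m, (cnt p tau i st e (s (v k') + nn (v k')) -
          cnt p tau i st e (s (v k'))) [MOD p.q])
    (hcl : Claim p C m u v s nn Tv 0) :
    ∀ k < m, Ag w (Tv k) (s (v k)) (nn (v k)) := by
  have hlen0 : p.len 0 = 1 := by simp [Par.len]
  have hcore : ∀ k < m, ∀ j < nn (v k), C 0 (s (v k) + j) (Tv k + j) := by
    intro k hk j hj
    refine (hcl ⟨k, hk, ?_⟩ k hk j hj ?_ ?_).2
    · simp only [Lam, if_true]; exact hc.hnn _
    · rw [hlen0]; exact one_dvd _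
    · intro k' _ _
      have : Dd p 0 = 0 := by simp [Dd]
      rw [this]
      constructor
      · rintro ⟨d, hd, _⟩; exact absurd hd (Nat.not_lt_zero _)
      · rintro ⟨d, hd, _⟩; exact absurd hd (Nat.not_lt_zero _)
  intro k hk j hj
  symm
  apply hc.good.coreEq _ _ (hcore k hk j hj)
  intro st
  set e := tau 0 st (s (v k) + j) with he
  obtain ⟨K, hK, hV, hfar⟩ := exists_K5 hc.ok hc.hm u s nn hc.hnn 0
  obtain ⟨hcnt, -⟩ := counters 0 st e K hK hV hfar
    ⟨k, hk, by simp only [Lam, if_true]; exact hc.hnn _⟩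
    (fun k' _ b _ _ hb => by simp only [Par.wid, if_true]; exact hb)
  have h1 := hcnt k hk (Or.inr ⟨j, hj, by rw [hlen0]; exact one_dvd _, he.symm⟩)
  have hev : ∀ k' < m, ∀ j' < nn (v k'), (p.len 0 ∣ Tv k' + j' ∧ tau 0 st (Tv k' + j') = e) ↔
      (p.len 0 ∣ s (v k') + j' ∧ tau 0 st (s (v k') + j') = e) := by
    intro k' hk' j' hj'
    rw [hlen0, hc.good.coreTyp _ _ st (hcore k' hk' j' hj')]
    simp
  have hsum : ∀ k' ≤ m, cnt p tau 0 st e (Tv k') = cnt p tau 0 st e (Tv 0) +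
      ∑ k'' ∈ Finset.range k', (cnt p tau 0 st e (s (v k'') + nn (v k'')) -
        cnt p tau 0 st e (s (v k''))) := by
    intro k'
    induction k' with
    | zero => intro _; simp
    | succ k' ih =>
      intro hk'
      have h2 := ih (by omega)
      obtain ⟨h3, h4⟩ := cnt_window (nn (v k')) (hev k' (by omega))
      rw [Finset.sum_range_succ, hc.hTv k' (by omega)]
      omega
  have h2 := hsum k hk.le
  rw [hc.hT0] at h2
  rw [← h2] at h1
  obtain ⟨h3, h4⟩ := cnt_window j (fun j' hj' => hev k hk j' (by omega))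
  -- N (s + j) ≡ N (Tv k + j)
  have h5 : cnt p tau 0 st e (s (v k) + j) + cnt p tau 0 st e (Tv k) ≡
      cnt p tau 0 st e (Tv k + j) + cnt p tau 0 st e (Tv k) [MOD p.q] := by
    have h6 : cnt p tau 0 st e (s (v k) + j) + cnt p tau 0 st e (Tv k) =
      cnt p tau 0 st e (Tv k + j) + cnt p tau 0 st e (s (v k)) := by omega
    rw [h6]
    exact h1.add_left _
  exact Nat.ModEq.add_right_cancel' _ h5

end Pool.Agent.Helper31.SG
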