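import Pool.Agent.Helper51.SG.B4
import Pool.Agent.Helper76.SG.B5
import Pool.Agent.Helper31.SG.B6

/-! Part B: final forms of `counters`, `agree` and `final`. -/

set_option autoImplicit false

namespace Pool.Agent.Helper31.SG

open Pool.Agent.Helper68.SG

theorem counters {A : Type} {p : Par} {w : ℕ → A} {tau : ℕ → ℕ → ℕ → ℕ}
    {C : ℕ → ℕ → ℕ → Prop} {m : ℕ} {u v s nn Tu Tv : ℕ → ℕ}
    (hc : Ctx p w tau C m u v s nn Tu Tv) (i st e K : ℕ) (hK : 0 < K)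
    (hV : Val p m u s nn K) (hfar : ∀ z, p.P i ∣ z + K → FarB p m u s nn i (Rm p i) z)
    (hbig : ∃ k < m, Lam p i ≤ nn (u k))
    (hJ : ∀ k < m, ∀ b, p.len i ∣ b → tau i st b = e → b < Tu (k + 1) →
      b + p.wid i ≤ Tu (k + 1)) :
    (∀ k < m, ((∃ j < nn (v k), p.P i ∣ s (v k) + K + j) ∨
        (∃ j < nn (v k), p.len i ∣ s (v k) + j ∧ tau i st (s (v k) + j) = e)) →
      cnt p tau i st e (s (v k)) ≡ cnt p tau i st e (Tu 0) +
        ∑ k' ∈ Finset.range k, (cnt p tau i st e (s (v k') + nn (v k')) -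
          cnt p tau i st e (s (v k'))) [MOD p.q]) ∧
    cnt p tau i st e (Tu m) ≡ cnt p tau i st e (Tu 0) +
        ∑ k' ∈ Finset.range m, (cnt p tau i st e (s (v k') + nn (v k')) -
          cnt p tau i st e (s (v k'))) [MOD p.q] :=
  Pool.Agent.Helper76.SG.counters_of
    (fun hL h => Pool.Agent.Helper51.SG.know_of_wid hc.ok hc.good hL h)
    (fun h1 h2 h3 h4 h5 h6 _ h7 h8 h9 => margin h1 h2 h3 h4 h5 h6 h7 h8 h9)
    hc i st e K hK (Pool.Agent.Helper51.SG.baseView hc hK hV).1 hfar hbig hJ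

theorem agree {A : Type} {p : Par} {w : ℕ → A} {tau : ℕ → ℕ → ℕ → ℕ}
    {C : ℕ → ℕ → ℕ → Prop} {m : ℕ} {u v s nn Tu Tv : ℕ → ℕ}
    (hc : Ctx p w tau C m u v s nn Tu Tv) (i : ℕ) (hcl : Claim p C m u v s nn Tv (i + 1))
    (hbig : ∃ k < m, Lam p (i + 1) ≤ nn (u k)) (k : ℕ) (hk : k < m) (j : ℕ) (hj : j < nn (v k))
    (hfar : FarB p m u s nn (i + 1) (Dd p (i + 1) + p.len (i + 1)) (Tv k + j)) :
    w (s (v k) + j) = w (Tv k + j) :=
  agree_of hc (fun i k hk hb => Pool.Agent.Helper51.SG.posV hc i k hk hb) i hcl hbig k hk j hj hfar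

theorem final {A : Type} {p : Par} {w : ℕ → A} {tau : ℕ → ℕ → ℕ → ℕ}
    {C : ℕ → ℕ → ℕ → Prop} {m : ℕ} {u v s nn Tu Tv : ℕ → ℕ}
    (hc : Ctx p w tau C m u v s nn Tu Tv) (hcl : Claim p C m u v s nn Tv 0) :
    ∀ k < m, Ag w (Tv k) (s (v k)) (nn (v k)) :=
  final_of (fun hp _ hm u s nn hnn i => Pool.Agent.Helper51.SG.exists_K5 hp hm u s nn hnn i) hc
    (fun i st e K hK hV hfar hbig hJ => counters hc i st e K hK hV hfar hbig hJ) hcl

end Pool.Agent.Helper31.SG
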